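import Pool.Agent.ATZ.Stmts2

/-! Squad ATZ, row BND. -/

open scoped BigOperators

noncomputable section

namespace Pool.Agent.PP.TB.H52

open Pool.Agent.Helper51_AWC Pool.Agent.Helper79_WRA Pool.Agent.PP Pool.Agent.PP.KF
open Pool.Agent.PP.K9 Pool.Agent.PP.K9.H97 Pool.Agent.PP.H75 Pool.Agent.PP.T3 Pool.Agent.PP.T2
open Pool.Agent.PP.T5

attribute [local instance] Ideal.Quotient.field

theorem bnd (hCLZ : ClzStmt) (hIZB : IzbStmt) (hLNZ : LnzStmt) (hUWA : UwaStmt) : BndStmt := by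
  intro ℓ _ M _ hM G _ _ e V r p _he hTp hCl hex
  obtain ⟨γ, b, hZd, hSt⟩ := hex
  have hl2 : 2 ≤ ℓ := (Fact.out : ℓ.Prime).two_le
  have hl0 : 0 < ℓ := by omega
  obtain ⟨_, hz2, hz3⟩ := hCLZ ℓ G r p V hTp.1 hCl
  set Z : Subgroup G := Uw (ℓ ^ p) (Zc V) with hZ
  have hiz := hIZB ℓ M hM G e V Z γ b hZd r hz2
  have hZpos : 0 < Nat.card Z := Nat.card_pos
  set k : ℕ := p + r * p + r * r + ep ℓ with hk
  have hkk : k + 1 - ep ℓ = p + r * p + r * r + 1 := by omega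
  have h1 : Nat.card V * iz V Z γ < ℓ ^ (k + 1 - ep ℓ) * Nat.card Z := by
    rw [hkk]
    calc Nat.card V * iz V Z γ ≤ (ℓ ^ (p + r * p) * Nat.card Z) * ℓ ^ (r * r) :=
          Nat.mul_le_mul hz3 hiz
      _ = ℓ ^ (p + r * p + r * r) * Nat.card Z := by rw [pow_add ℓ (p + r * p) (r * r)]; ring
      _ < ℓ ^ (p + r * p + r * r + 1) * Nat.card Z := by
          apply Nat.mul_lt_mul_of_pos_right _ hZpos
          exact Nat.pow_lt_pow_right (by omega) (Nat.lt_succ_self _)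
  have h2 := hLNZ ℓ M hM G e V Z γ b hZd hSt k h1
  set W : Subgroup G := Uw (ℓ ^ k) Z with hW
  have habel : ∀ x ∈ Z, ∀ y ∈ Z, x * y = y * x := fun x hx y hy =>
    hZd.cen y hy x (hZd.le hx)
  have h3 : Nat.card Z ≤ ℓ ^ (r * k) * Nat.card W := (hUWA G Z habel).2.1 ℓ r k hz2
  have hWpos : 0 < Nat.card W := Nat.card_pos
  have h4 : Nat.card V ≤ ℓ ^ (p + r * p + r * k) * Nat.card W := by
    calc Nat.card V ≤ ℓ ^ (p + r * p) * Nat.card Z := hz3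
      _ ≤ ℓ ^ (p + r * p) * (ℓ ^ (r * k) * Nat.card W) := Nat.mul_le_mul_left _ h3
      _ = ℓ ^ (p + r * p + r * k) * Nat.card W := by rw [pow_add ℓ (p + r * p) (r * k)]; ring
  have h5 : ln e * Nat.card W ^ 2 ≤ ℓ ^ (2 * (p + r * p + r * k)) * Nat.card W ^ 2 := by
    calc ln e * Nat.card W ^ 2 ≤ Nat.card V ^ 2 := h2
      _ ≤ (ℓ ^ (p + r * p + r * k) * Nat.card W) ^ 2 := Nat.pow_le_pow_left h4 2
      _ = ℓ ^ (2 * (p + r * p + r * k)) * Nat.card W ^ 2 := by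
          rw [mul_pow, ← pow_mul, mul_comm (p + r * p + r * k) 2]
  have h6 := Nat.le_of_mul_le_mul_right h5 (pow_pos hWpos 2)
  exact h6

end Pool.Agent.PP.TB.H52
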